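import Pool.Agent.Helper98.EY.StmtsB

/-!
# ey_mods.CAPLOW: capacity from the current
-/

set_option autoImplicit false

namespace Pool.Agent.Helper98.EX

open Finset

theorem caplow_log (c1 : ℝ) (h : 0 < c1) : ∃ N2 : ℕ, ∀ N : ℕ, N2 ≤ N →
    3 ≤ N ∧ 1 ≤ Real.log N ∧
    (Real.log N ^ 8 + 1) * (1 + N / Real.log N ^ 9) < c1 * N := by
  have h1 : ∀ᶠ x : ℝ in Filter.atTop, ‖Real.log x ^ 8‖ ≤ c1 / 8 * ‖id x‖ :=
    (Real.isLittleO_pow_log_id_atTop (n := 8)).def (by positivity)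
  have h2 := tendsto_natCast_atTop_atTop.eventually h1
  have h3 : ∀ᶠ x : ℝ in Filter.atTop, max 1 (8 / c1) ≤ Real.log x :=
    Real.tendsto_log_atTop.eventually_ge_atTop _
  have h4 := tendsto_natCast_atTop_atTop.eventually h3
  have h5 := (h2.and h4).and (Filter.eventually_ge_atTop 3)
  rw [Filter.eventually_atTop] at h5
  obtain ⟨N2, hN2⟩ := h5
  refine ⟨N2, fun N hN => ?_⟩
  obtain ⟨⟨a1, a2⟩, a3⟩ := hN2 N hN
  have hL1 : 1 ≤ Real.log N := (le_max_left _ _).trans a2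
  have hL2 : 8 / c1 ≤ Real.log N := (le_max_right _ _).trans a2
  refine ⟨a3, hL1, ?_⟩
  have hNpos : (0 : ℝ) < N := by
    have : 0 < N := by omega
    exact_mod_cast this
  rw [Real.norm_of_nonneg (by positivity), id, Real.norm_of_nonneg hNpos.le] at a1
  have hL0 : 0 < Real.log N := by linarith
  have b1 : 1 ≤ Real.log N ^ 8 := one_le_pow₀ hL1
  have b2 : Real.log N ^ 8 + 1 ≤ 2 * Real.log N ^ 8 := by linarith
  have b3 : (Real.log N ^ 8 + 1) * (1 + N / Real.log N ^ 9) ≤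
      2 * Real.log N ^ 8 * (1 + N / Real.log N ^ 9) :=
    mul_le_mul_of_nonneg_right b2 (by positivity)
  have b4 : 2 * Real.log N ^ 8 * (1 + N / Real.log N ^ 9) =
      2 * Real.log N ^ 8 + 2 * (N / Real.log N) := by
    field_simp
  have b5 : (N : ℝ) / Real.log N ≤ c1 / 8 * N := by
    rw [div_le_iff₀ hL0]
    have : 1 ≤ c1 / 8 * Real.log N := by
      rw [div_le_iff₀ h] at hL2
      linarith
    calc (N : ℝ) = 1 * N := by ring
      _ ≤ (c1 / 8 * Real.log N) * N := mul_le_mul_of_nonneg_right this hNpos.le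
      _ = c1 / 8 * N * Real.log N := by ring
  have b6 : 0 < c1 * N := mul_pos h hNpos
  linarith

/-- the case of positive left rates -/
theorem caplow_pos (hE : ST_EPOCH) (N k : ℕ) (r l : ℕ → ℝ) (m1 A B : ℕ) (c1 : ℝ)
    (hL1 : 1 ≤ Real.log N) (hN0 : 0 < N)
    (hlog : (Real.log N ^ 8 + 1) * (1 + N / Real.log N ^ 9) < c1 * N)
    (hAdm : Adm N r l) (hA1 : 1 ≤ A) (hAB : A ≤ B) (hBN : B + 1 < N)
    (hw : (B : ℝ) ≤ A + Real.log N ^ 8) (hlpos : ∀ b, A < b → b ≤ B → 0 < l b)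
    (hga : (ht (bot N k) (B + 1) : ℝ) + c1 * N ≤
      ev r l (fun _ => full N) m1 (fun ξ => (ht ξ (B + 1) : ℝ)) (bot N k)) :
    ∃ y, A ≤ y ∧ y ≤ B ∧ vp r l y B ≤ Real.log N ^ 9 * ((m1 : ℝ) / (2 * N)) / N ∧
      vh r l A y ≤ Real.log N ^ 9 * ((m1 : ℝ) / (2 * N)) / N := by
  classical
  by_contra hcon
  push Not at hcon
  obtain ⟨κ, hκ⟩ : ∃ κ, κ = Real.log N ^ 9 * ((m1 : ℝ) / (2 * N)) / N := ⟨_, rfl⟩
  rw [← hκ] at hcon
  have hNpos : (0 : ℝ) < N := by exact_mod_cast hN0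
  have hL0 : 0 < Real.log N := by linarith
  have hκ0 : 0 ≤ κ := by rw [hκ]; positivity
  have hrA := hAdm A hA1 (by omega)
  have hrB := hAdm (B + 1) (by omega) hBN
  have hRRp : ∀ z x, A ≤ z → x ≤ B → 0 < RR r l z x := by
    intro z x hz hx
    unfold RR
    apply Finset.prod_pos
    intro b hb
    rw [Finset.mem_Ioc] at hb
    exact div_pos (hlpos b (by omega) (by omega)) (hAdm b (by omega) (by omega)).1
  obtain ⟨G, hG⟩ : ∃ G, G = (Finset.Icc A B).filter fun y => κ < vp r l y B := ⟨_, rfl⟩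
  have hG1 : G ⊆ Finset.Icc A B := by rw [hG]; exact Finset.filter_subset _ _
  have hep := hE N r l A B m1 G (bot N k) hAdm hA1 hAB hBN hG1 hlpos
  have hT : 0 ≤ (m1 : ℝ) / (2 * N) := by positivity
  have hcard : ((Finset.Icc A B).card : ℝ) = (B : ℝ) + 1 - A := by
    rw [Nat.card_Icc, Nat.cast_sub (by omega)]
    push_cast
    ring
  -- all terms times `κ` are at most one
  have t1 : ∀ y ∈ G, κ * (r (B + 1) / RR r l y B) ≤ 1 := by
    intro y hy
    rw [hG, Finset.mem_filter, Finset.mem_Icc] at hy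
    have p1 := hRRp y B hy.1.1 le_rfl
    have h1 := hy.2.le
    unfold vp at h1
    have e1 : r (B + 1) / RR r l y B = (RR r l y B / r (B + 1))⁻¹ := by rw [inv_div]
    have p2 : 0 < RR r l y B / r (B + 1) := div_pos p1 hrB.1
    rw [e1, ← div_eq_mul_inv, div_le_one p2]
    exact h1
  have t2 : ∀ x ∈ Finset.Icc A B \ G, κ * (r A / RR r l A x) ≤ 1 := by
    intro x hx
    rw [Finset.mem_sdiff, hG, Finset.mem_filter, Finset.mem_Icc] at hx
    have h0 : vp r l x B ≤ κ := by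
      by_contra h
      exact hx.2 ⟨hx.1, not_le.1 h⟩
    have h1 := (hcon x hx.1.1 hx.1.2 h0).le
    have p1 := hRRp A x le_rfl hx.1.2
    unfold vh at h1
    have e1 : r A / RR r l A x = (RR r l A x / r A)⁻¹ := by rw [inv_div]
    have p2 : 0 < RR r l A x / r A := div_pos p1 hrA.1
    rw [e1, ← div_eq_mul_inv, div_le_one p2]
    exact h1
  obtain ⟨Sm, hSm⟩ : ∃ s, s = ∑ y ∈ G, r (B + 1) / RR r l y B +
    ∑ x ∈ Finset.Icc A B \ G, r A / RR r l A x := ⟨_, rfl⟩
  rw [← hSm] at hep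
  have hsum : κ * Sm ≤ (B : ℝ) + 1 - A := by
    rw [hSm, mul_add, Finset.mul_sum, Finset.mul_sum]
    have e1 : ∑ y ∈ G, κ * (r (B + 1) / RR r l y B) ≤ G.card := by
      have := Finset.sum_le_card_nsmul _ _ _ t1
      rwa [nsmul_eq_mul, mul_one] at this
    have e2 : ∑ x ∈ Finset.Icc A B \ G, κ * (r A / RR r l A x) ≤ (Finset.Icc A B \ G).card := by
      have := Finset.sum_le_card_nsmul _ _ _ t2
      rwa [nsmul_eq_mul, mul_one] at this
    have e3 : (G.card : ℝ) + (Finset.Icc A B \ G).card = (Finset.Icc A B).card := by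
      have := Finset.card_sdiff_add_card_eq_card hG1
      have h' : ((Finset.Icc A B \ G).card : ℝ) + G.card = (Finset.Icc A B).card := by
        exact_mod_cast this
      linarith
    rw [← hcard, ← e3]
    exact add_le_add e1 e2
  have hwl : (B : ℝ) + 1 - A ≤ Real.log N ^ 8 + 1 := by linarith
  have hmain : c1 * N ≤ ((B : ℝ) + 1 - A) + (m1 : ℝ) / (2 * N) * Sm := by linarith
  have hTS : (m1 : ℝ) / (2 * N) * Sm = (κ * Sm) * (N / Real.log N ^ 9) := by
    rw [hκ]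
    field_simp
  have hq : 0 ≤ (N : ℝ) / Real.log N ^ 9 := by positivity
  have hfin : (m1 : ℝ) / (2 * N) * Sm ≤ (Real.log N ^ 8 + 1) * (N / Real.log N ^ 9) := by
    rw [hTS]
    exact mul_le_mul_of_nonneg_right (hsum.trans hwl) hq
  have : c1 * N ≤ (Real.log N ^ 8 + 1) * (1 + N / Real.log N ^ 9) := by
    rw [mul_add, mul_one]
    linarith
  linarith

theorem st_CAPLOW (hE : ST_EPOCH) (hG : ST_GAIN) : ST_CAPLOW := by
  classical
  intro ε c c2 m0 hε hc hc2
  obtain ⟨c1, N1, hc1, hgain⟩ := hG ε c c2 m0 hε hc hc2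
  obtain ⟨N2, hN2⟩ := caplow_log c1 hc1
  refine ⟨max N1 N2, ?_⟩
  intro N k r l m1 A B hN hk1 hk2 hAdm hA hAB hw hB hpr
  have hNN1 : N1 ≤ N := (le_max_left _ _).trans hN
  obtain ⟨hN3, hL1, hlog⟩ := hN2 N ((le_max_right _ _).trans hN)
  have hNpos : (0 : ℝ) < N := by
    have : 0 < N := by omega
    exact_mod_cast this
  have hL0 : 0 < Real.log N := by linarith
  have hc2N : 0 < c2 * N := mul_pos hc2 hNpos
  have hA1 : 1 ≤ A := by
    have : (0 : ℝ) < A := lt_of_lt_of_le hc2N hA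
    have : 0 < A := by exact_mod_cast this
    omega
  have hBN : B + 1 < N := by
    have : (B : ℝ) + 1 < N := by nlinarith
    exact_mod_cast this
  have hga := hgain N k r l m1 (B + 1) hNN1 hk1 hk2 hAdm
    (by push_cast; have : (A : ℝ) ≤ B := by exact_mod_cast hAB
        linarith) (by push_cast; exact hB) hpr
  by_cases hpos : ∀ b, A < b → b ≤ B → 0 < l b
  · exact caplow_pos hE N k r l m1 A B c1 hL1 (by omega) hlog hAdm hA1 hAB hBN hw hpos hga
  · push Not at hpos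
    obtain ⟨b0, hb01, hb02, hb03⟩ := hpos
    obtain ⟨Z, hZ⟩ : ∃ Z, Z = (Finset.Ioc A B).filter fun b => l b ≤ 0 := ⟨_, rfl⟩
    have hne : Z.Nonempty := ⟨b0, by
      rw [hZ, Finset.mem_filter, Finset.mem_Ioc]
      exact ⟨⟨hb01, hb02⟩, hb03⟩⟩
    have hbm := Z.max'_mem hne
    obtain ⟨b, hb⟩ : ∃ b, b = Z.max' hne := ⟨_, rfl⟩
    rw [← hb, hZ, Finset.mem_filter, Finset.mem_Ioc] at hbm
    obtain ⟨⟨hb1, hb2⟩, hb3⟩ := hbm
    have hlpos : ∀ x, b < x → x ≤ B → 0 < l x := by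
      intro x hx1 hx2
      by_contra h
      have hxZ : x ∈ Z := by
        rw [hZ, Finset.mem_filter, Finset.mem_Ioc]
        exact ⟨⟨by omega, hx2⟩, not_lt.1 h⟩
      have := Z.le_max' x hxZ
      rw [← hb] at this
      omega
    have hbA : (A : ℝ) ≤ b := by exact_mod_cast hb1.le
    obtain ⟨y, hy1, hy2, hy3, -⟩ := caplow_pos hE N k r l m1 b B c1 hL1 (by omega) hlog hAdm
      (by omega) hb2 hBN (by linarith) hlpos hga
    refine ⟨y, by omega, hy2, hy3, ?_⟩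
    have hlb : l b = 0 := le_antisymm hb3 (hAdm b (by omega) (by omega)).2.2.1
    have hRR : RR r l A y = 0 := by
      unfold RR
      apply Finset.prod_eq_zero (Finset.mem_Ioc.2 ⟨hb1, hy1⟩)
      rw [hlb, zero_div]
    unfold vh
    rw [hRR, zero_div]
    positivity

end Pool.Agent.Helper98.EX
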