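import Pool.Agent.Helper98.EY.StmtsC

/-! # Linear interpolation between two height profiles (module MSJ) -/

set_option autoImplicit false

namespace Pool.Agent.Helper98.EX

open Finset

/-! ### numbers -/

/-- thresholds -/
theorem msj_ev (δ c' : ℝ) (hδ : 0 < δ) (hc : 0 < c') : ∃ N0 : ℕ, ∀ N : ℕ, N0 ≤ N →
    1 ≤ N ∧ 1000 ≤ Real.log N ∧ 200 ≤ δ * Real.log N ∧ 10 ≤ c' * Real.log N ∧
      Real.log N ^ 21000 ≤ N := by
  have h1 : ∀ᶠ x : ℝ in Filter.atTop, ‖Real.log x ^ 21000‖ ≤ 1 * ‖(id x : ℝ)‖ :=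
    (Real.isLittleO_pow_log_id_atTop (n := 21000)).bound one_pos
  have h2 : ∀ᶠ x : ℝ in Filter.atTop, 1000 + 200 / δ + 10 / c' ≤ Real.log x :=
    Real.tendsto_log_atTop.eventually_ge_atTop _
  have h3 : ∀ᶠ x : ℝ in Filter.atTop, (1 : ℝ) ≤ x := Filter.eventually_ge_atTop 1
  obtain ⟨a, ha⟩ := Filter.eventually_atTop.1 ((h1.and h2).and h3)
  refine ⟨⌈a⌉₊, fun N hN => ?_⟩
  have haN : a ≤ (N : ℝ) := (Nat.le_ceil a).trans (by exact_mod_cast hN)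
  obtain ⟨⟨h4, h5⟩, h6⟩ := ha N haN
  have h7 : 0 < 200 / δ := by positivity
  have h8 : 0 < 10 / c' := by positivity
  refine ⟨by exact_mod_cast h6, by linarith, ?_, ?_, ?_⟩
  · have : δ * (200 / δ) = 200 := by field_simp
    nlinarith [mul_le_mul_of_nonneg_left (show 200 / δ ≤ Real.log N by linarith) hδ.le]
  · have : c' * (10 / c') = 10 := by field_simp
    nlinarith [mul_le_mul_of_nonneg_left (show 10 / c' ≤ Real.log N by linarith) hc.le]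
  · have h9 : 0 ≤ Real.log N ^ 21000 := pow_nonneg (by linarith) _
    simp only [id, one_mul] at h4
    rw [Real.norm_of_nonneg h9, Real.norm_of_nonneg (by linarith)] at h4
    exact h4

/-- powers -/
theorem msj_pow {L : ℝ} (hL : 1 ≤ L) {a b : ℕ} (h : a ≤ b) : L ^ a ≤ L ^ b :=
  pow_le_pow_right₀ hL h

/-- abstract inequalities: lengths -/
theorem msj_len {L Nr s M1 ms mr ta n δ J Jm : ℝ} (hL : 1000 ≤ L)
    (hδ : 0 < δ) (hδ2 : δ ≤ 1 / 20) (hδL : 200 ≤ δ * L) (hN1 : 1 ≤ Nr) (hLN : L ^ 21000 ≤ Nr)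
    (hs : s * s = Nr) (hs0 : 0 ≤ s)
    (hms1 : 2 * Nr * L ^ 4601 ≤ ms) (hms2 : ms ≤ 3 * Nr * L ^ 4601)
    (hmr0 : 0 ≤ mr) (hmr : 2 * (L * mr) ≤ 3 * ms) (hta : ta * L ^ 208 ≤ 9 * Nr ^ 2)
    (hn0 : 0 ≤ n) (hn : n ≤ 4 * L ^ 240)
    (hM1 : 2 * Nr ^ 3 ≤ M1 * L ^ 200) (hM2 : M1 ≤ 2 * Nr ^ 3 * s)
    (hJ0 : 0 < J) (hJ1 : L ^ 240 * M1 ≤ J * (Nr * ms)) (hJ2 : J * (Nr * ms) ≤ L ^ 240 * M1 + Nr * ms)
    (hJm1 : (1 + 8 * δ) * M1 ≤ Jm * (J * ms)) (hJm2 : Jm * (J * ms) ≤ (1 + 8 * δ) * M1 + J * ms) :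
    Jm ≤ Nr ∧ J ≤ 2 * (Nr * s) ∧ J ≤ Nr ^ 2 ∧
    Jm * (J * (ms + mr) + 3 * ta * n) ≤ (1 + 20 * δ) * M1 ∧
    Nr ≤ (L ^ 240 + 1) * Jm ∧ 0 < M1 ∧ 0 < Jm ∧ 0 < ms := by
  have hL1 : 1 ≤ L := by linarith
  have hL0 : 0 < L := by linarith
  have hN0 : 0 < Nr := by linarith
  have hp : ∀ k : ℕ, 0 < L ^ k := fun k => pow_pos hL0 k
  have hp1 : ∀ k : ℕ, 1 ≤ L ^ k := fun k => one_le_pow₀ hL1
  have hms0 : 0 < ms := lt_of_lt_of_le (by have := hp 4601; positivity) hms1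
  have hM0 : 0 < M1 := by
    by_contra hcon
    push Not at hcon
    have h1 : M1 * L ^ 200 ≤ 0 := mul_nonpos_of_nonpos_of_nonneg hcon (hp 200).le
    have h2 : 0 < 2 * Nr ^ 3 := by positivity
    linarith
  have hP0 : 0 < J * ms := mul_pos hJ0 hms0
  have hJm0 : 0 < Jm := by
    by_contra hcon
    push Not at hcon
    have h1 : Jm * (J * ms) ≤ 0 := mul_nonpos_of_nonpos_of_nonneg hcon hP0.le
    have h2 : 0 < (1 + 8 * δ) * M1 := by positivity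
    linarith
  -- `J * ms` from below
  have hP3 : 2 * Nr ^ 2 * L ^ 40 ≤ J * ms := by
    have h1 : Nr * (2 * Nr ^ 2 * L ^ 40) ≤ Nr * (J * ms) := by
      have h2 := mul_le_mul_of_nonneg_right hM1 (hp 40).le
      have e1 : M1 * L ^ 200 * L ^ 40 = L ^ 240 * M1 := by ring
      rw [e1] at h2
      calc Nr * (2 * Nr ^ 2 * L ^ 40) = 2 * Nr ^ 3 * L ^ 40 := by ring
        _ ≤ L ^ 240 * M1 := h2
        _ ≤ J * (Nr * ms) := hJ1
        _ = Nr * (J * ms) := by ring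
    exact le_of_mul_le_mul_left h1 hN0
  -- small quantities
  have hLs : 5 * L ^ 10132 ≤ s := by
    have h1 : (5 * L ^ 10132) * (5 * L ^ 10132) ≤ s * s := by
      rw [hs]
      refine le_trans ?_ hLN
      have e : (5 * L ^ 10132) * (5 * L ^ 10132) = 25 * L ^ 20264 := by ring
      rw [e]
      have h2 : L ^ 20265 ≤ L ^ 21000 := msj_pow hL1 (by norm_num)
      have e2 : L ^ 20265 = L * L ^ 20264 := by ring
      rw [e2] at h2
      nlinarith [hp 20264]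
    exact abs_le_of_sq_le_sq' (by nlinarith) hs0 |>.2
  have hs1 : 5 ≤ s := by nlinarith [hp1 10132]
  have hsN : 5 * s ≤ Nr := by rw [← hs]; nlinarith
  have hδN : L ^ 241 ≤ δ * Nr := by
    have h1 : δ * L ^ 21000 ≤ δ * Nr := mul_le_mul_of_nonneg_left hLN hδ.le
    have e : δ * L ^ 21000 = (δ * L) * L ^ 20999 := by ring
    rw [e] at h1
    have h2 : L ^ 241 ≤ L ^ 20999 := msj_pow hL1 (by norm_num)
    nlinarith [hp 20999]
  have hδN1 : 1 ≤ δ * Nr := (hp1 241).trans hδN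
  have h48 : 3 * L ^ 4801 ≤ Nr := by
    refine le_trans ?_ hLN
    have h2 : L ^ 4802 ≤ L ^ 21000 := msj_pow hL1 (by norm_num)
    have e : L ^ 4802 = L * L ^ 4801 := by ring
    rw [e] at h2
    nlinarith [hp 4801]
  have hmsM : ms ≤ δ * M1 := by
    have h1 : ms * L ^ 200 ≤ δ * M1 * L ^ 200 := by
      calc ms * L ^ 200 ≤ 3 * Nr * L ^ 4601 * L ^ 200 := mul_le_mul_of_nonneg_right hms2 (hp 200).le
        _ = Nr * (3 * L ^ 4801) := by ring
        _ ≤ Nr * Nr := mul_le_mul_of_nonneg_left h48 hN0.le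
        _ ≤ Nr * Nr * (δ * Nr) := le_mul_of_one_le_right (by positivity) hδN1
        _ = δ * Nr ^ 3 := by ring
        _ ≤ δ * (2 * Nr ^ 3) := by
          apply mul_le_mul_of_nonneg_left _ hδ.le
          have : 0 < Nr ^ 3 := by positivity
          linarith
        _ ≤ δ * (M1 * L ^ 200) := mul_le_mul_of_nonneg_left hM1 hδ.le
        _ = δ * M1 * L ^ 200 := by ring
    exact le_of_mul_le_mul_right h1 (hp 200)
  have hNms : Nr * ms ≤ M1 := by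
    have h1 : Nr * ms * L ^ 200 ≤ M1 * L ^ 200 := by
      calc Nr * ms * L ^ 200 = Nr * (ms * L ^ 200) := by ring
        _ ≤ Nr * (3 * Nr * L ^ 4601 * L ^ 200) := by
          apply mul_le_mul_of_nonneg_left _ hN0.le
          exact mul_le_mul_of_nonneg_right hms2 (hp 200).le
        _ = Nr ^ 2 * (3 * L ^ 4801) := by ring
        _ ≤ Nr ^ 2 * Nr := mul_le_mul_of_nonneg_left h48 (by positivity)
        _ ≤ 2 * Nr ^ 3 := by
          have : 0 < Nr ^ 3 := by positivity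
          nlinarith
        _ ≤ M1 * L ^ 200 := hM1
    exact le_of_mul_le_mul_right h1 (hp 200)
  -- upper bound of `J * ms`
  have hPδ : J * ms ≤ 2 * δ * M1 := by
    have h1 : Nr * (J * ms) ≤ Nr * (2 * δ * M1) := by
      have h2 : L ^ 240 * M1 ≤ δ * Nr * M1 := by
        apply mul_le_mul_of_nonneg_right _ hM0.le
        exact (msj_pow hL1 (by norm_num)).trans hδN
      have h3 : Nr * ms ≤ Nr * (δ * M1) := mul_le_mul_of_nonneg_left hmsM hN0.le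
      calc Nr * (J * ms) = J * (Nr * ms) := by ring
        _ ≤ L ^ 240 * M1 + Nr * ms := hJ2
        _ ≤ δ * Nr * M1 + Nr * (δ * M1) := add_le_add h2 h3
        _ = Nr * (2 * δ * M1) := by ring
    exact le_of_mul_le_mul_left h1 hN0
  have hJmP : Jm * (J * ms) ≤ (1 + 10 * δ) * M1 := by
    calc Jm * (J * ms) ≤ (1 + 8 * δ) * M1 + J * ms := hJm2
      _ ≤ (1 + 8 * δ) * M1 + 2 * δ * M1 := by linarith
      _ = (1 + 10 * δ) * M1 := by ring
  -- `Jm ≤ N`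
  have h1 : Jm ≤ Nr := by
    have h2 : Jm * (J * ms) ≤ Nr * (J * ms) := by
      have h3 : L ^ 240 * M1 ≤ Nr * (J * ms) := by
        calc L ^ 240 * M1 ≤ J * (Nr * ms) := hJ1
          _ = Nr * (J * ms) := by ring
      have h4 : 1000 * M1 ≤ L ^ 240 * M1 := by
        apply mul_le_mul_of_nonneg_right _ hM0.le
        calc (1000 : ℝ) ≤ L := hL
          _ = L ^ 1 := (pow_one L).symm
          _ ≤ L ^ 240 := msj_pow hL1 (by norm_num)
      have h5 : 2 ≤ Nr := by linarith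
      have h6 : 2 * (J * ms) ≤ Nr * (J * ms) := mul_le_mul_of_nonneg_right h5 hP0.le
      have h7 : (1 + 8 * δ) * M1 ≤ 2 * M1 := mul_le_mul_of_nonneg_right (by linarith) hM0.le
      linarith
    exact le_of_mul_le_mul_right h2 hP0
  -- bound of `J`
  have h2 : J ≤ 2 * (Nr * s) := by
    have h3 : J * (Nr * ms) ≤ 2 * (Nr * s) * (Nr * ms) := by
      have h4 : L ^ 240 * M1 ≤ Nr * s * (Nr * ms) := by
        calc L ^ 240 * M1 ≤ L ^ 4601 * (2 * Nr ^ 3 * s) :=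
              mul_le_mul (msj_pow hL1 (by norm_num)) hM2 hM0.le (hp 4601).le
          _ = Nr ^ 2 * s * (2 * Nr * L ^ 4601) := by ring
          _ ≤ Nr ^ 2 * s * ms := mul_le_mul_of_nonneg_left hms1 (by positivity)
          _ = Nr * s * (Nr * ms) := by ring
      have h5 : Nr * ms ≤ Nr * s * (Nr * ms) := by
        apply le_mul_of_one_le_left (by positivity)
        calc (1 : ℝ) = 1 * 1 := by norm_num
          _ ≤ Nr * s := mul_le_mul hN1 (by linarith) zero_le_one hN0.le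
      linarith
    exact le_of_mul_le_mul_right h3 (by positivity)
  have h3 : J ≤ Nr ^ 2 := by
    calc J ≤ 2 * (Nr * s) := h2
      _ = Nr * (2 * s) := by ring
      _ ≤ Nr * Nr := mul_le_mul_of_nonneg_left (by linarith) hN0.le
      _ = Nr ^ 2 := by ring
  refine ⟨h1, h2, h3, ?_, ?_, hM0, hJm0, hms0⟩
  · have h4 : J * mr ≤ δ / 2 * (J * ms) := by
      have h5 : mr ≤ δ / 2 * ms := by
        have h6 : 200 * mr ≤ δ * L * mr := mul_le_mul_of_nonneg_right hδL hmr0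
        have h7 : δ * (2 * (L * mr)) ≤ δ * (3 * ms) := mul_le_mul_of_nonneg_left hmr hδ.le
        have h8 : 0 < δ * ms := mul_pos hδ hms0
        have e1 : δ * (2 * (L * mr)) = 2 * (δ * L * mr) := by ring
        have e2 : δ * (3 * ms) = 3 * (δ * ms) := by ring
        have e3 : δ / 2 * ms = (δ * ms) / 2 := by ring
        rw [e1, e2] at h7
        rw [e3]
        linarith
      calc J * mr ≤ J * (δ / 2 * ms) := mul_le_mul_of_nonneg_left h5 hJ0.le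
        _ = δ / 2 * (J * ms) := by ring
    have h5 : 3 * ta * n ≤ δ / 2 * (J * ms) := by
      have h6 : 3 * ta * n * L ^ 208 ≤ δ / 2 * (J * ms) * L ^ 208 := by
        calc 3 * ta * n * L ^ 208 = 3 * n * (ta * L ^ 208) := by ring
          _ ≤ 3 * n * (9 * Nr ^ 2) := mul_le_mul_of_nonneg_left hta (by positivity)
          _ = n * (27 * Nr ^ 2) := by ring
          _ ≤ 4 * L ^ 240 * (27 * Nr ^ 2) := mul_le_mul_of_nonneg_right hn (by positivity)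
          _ = 108 * (Nr ^ 2 * L ^ 240) := by ring
          _ ≤ δ * L * L ^ 7 * (Nr ^ 2 * L ^ 240) := by
            apply mul_le_mul_of_nonneg_right _ (by have := hp 240; positivity)
            calc (108 : ℝ) ≤ 200 * 1 := by norm_num
              _ ≤ δ * L * L ^ 7 := mul_le_mul hδL (hp1 7) zero_le_one (by positivity)
          _ = δ / 2 * (2 * Nr ^ 2 * L ^ 40) * L ^ 208 := by ring
          _ ≤ δ / 2 * (J * ms) * L ^ 208 := by
            apply mul_le_mul_of_nonneg_right _ (hp 208).le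
            exact mul_le_mul_of_nonneg_left hP3 (by positivity)
      exact le_of_mul_le_mul_right h6 (hp 208)
    have h6 : Jm * (J * (ms + mr) + 3 * ta * n) ≤ Jm * ((1 + δ) * (J * ms)) := by
      apply mul_le_mul_of_nonneg_left _ hJm0.le
      calc J * (ms + mr) + 3 * ta * n = J * ms + J * mr + 3 * ta * n := by ring
        _ ≤ J * ms + δ / 2 * (J * ms) + δ / 2 * (J * ms) := by linarith
        _ = (1 + δ) * (J * ms) := by ring
    refine h6.trans ?_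
    calc Jm * ((1 + δ) * (J * ms)) = (1 + δ) * (Jm * (J * ms)) := by ring
      _ ≤ (1 + δ) * ((1 + 10 * δ) * M1) := mul_le_mul_of_nonneg_left hJmP (by positivity)
      _ = ((1 + δ) * (1 + 10 * δ)) * M1 := by ring
      _ ≤ (1 + 20 * δ) * M1 := by
        apply mul_le_mul_of_nonneg_right _ hM0.le
        nlinarith
  · have h4 : Nr * (J * ms) ≤ (L ^ 240 + 1) * Jm * (J * ms) := by
      calc Nr * (J * ms) = J * (Nr * ms) := by ring
        _ ≤ L ^ 240 * M1 + Nr * ms := hJ2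
        _ ≤ L ^ 240 * M1 + M1 := by linarith
        _ = (L ^ 240 + 1) * M1 := by ring
        _ ≤ (L ^ 240 + 1) * (Jm * (J * ms)) := by
          apply mul_le_mul_of_nonneg_left _ (by have := hp 240; positivity)
          refine le_trans ?_ hJm1
          exact le_mul_of_one_le_left hM0.le (by linarith)
        _ = (L ^ 240 + 1) * Jm * (J * ms) := by ring
    exact le_of_mul_le_mul_right h4 hP0

/-- abstract inequalities: one barrier -/
theorem msj_bar {L Nr s M1 ms δ J Jm c' D cp rr : ℝ} (hL : 1000 ≤ L)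
    (hδ : 0 < δ) (hδ2 : δ ≤ 1 / 20) (hδL : 200 ≤ δ * L) (hcL : 10 ≤ c' * L) (hN1 : 1 ≤ Nr)
    (hLN : L ^ 21000 ≤ Nr) (hs : s * s = Nr) (hs0 : 0 ≤ s)
    (hms0 : 0 < ms) (hms2 : ms ≤ 3 * Nr * L ^ 4601) (hM0 : 0 < M1)
    (hJ0 : 0 < J) (hJ1 : L ^ 240 * M1 ≤ J * (Nr * ms)) (hJ3 : J ≤ 2 * (Nr * s))
    (hJm0 : 0 < Jm) (hJm1 : (1 + 8 * δ) * M1 ≤ Jm * (J * ms)) (hJm3 : Nr ≤ (L ^ 240 + 1) * Jm)
    (hc : 0 < c')
    (hDN : D ≤ Nr) (hcap1 : (1 - δ) * D * ms / M1 ≤ cp) (hcap2 : c' * Nr * ms / M1 ≤ cp)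
    (hr0 : 0 ≤ rr) (hr : rr * Nr ≤ L ^ 465) :
    D / Jm + 1 ≤ L ^ 240 + 2 ∧
    D / Jm + 1 ≤ (1 - δ) * (J * (cp - (rr * ms / (2 * Nr)) ^ 2)) ∧
    L ^ 3 ≤ J * (cp - (rr * ms / (2 * Nr)) ^ 2) := by
  have hL1 : 1 ≤ L := by linarith
  have hL0 : 0 < L := by linarith
  have hN0 : 0 < Nr := by linarith
  have hp : ∀ k : ℕ, 0 < L ^ k := fun k => pow_pos hL0 k
  have hp1 : ∀ k : ℕ, 1 ≤ L ^ k := fun k => one_le_pow₀ hL1
  have hP0 : 0 < J * ms := mul_pos hJ0 hms0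
  have hcp0 : 0 < cp := lt_of_lt_of_le (by positivity) hcap2
  have hLs : 5 * L ^ 10132 ≤ s := by
    have h1 : (5 * L ^ 10132) * (5 * L ^ 10132) ≤ s * s := by
      rw [hs]
      refine le_trans ?_ hLN
      have e : (5 * L ^ 10132) * (5 * L ^ 10132) = 25 * L ^ 20264 := by ring
      rw [e]
      have h2 : L ^ 20265 ≤ L ^ 21000 := msj_pow hL1 (by norm_num)
      have e2 : L ^ 20265 = L * L ^ 20264 := by ring
      rw [e2] at h2
      nlinarith [hp 20264]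
    exact abs_le_of_sq_le_sq' (by nlinarith) hs0 |>.2
  -- the error term
  have hx : J * (rr * ms / (2 * Nr)) ^ 2 ≤ 1 := by
    have h1 : rr * ms / (2 * Nr) ≤ 3 / 2 * L ^ 5066 / Nr := by
      rw [div_le_div_iff₀ (by positivity) hN0]
      calc rr * ms * Nr = (rr * Nr) * ms := by ring
        _ ≤ L ^ 465 * (3 * Nr * L ^ 4601) := mul_le_mul hr hms2 hms0.le (hp 465).le
        _ = 3 / 2 * L ^ 5066 * (2 * Nr) := by ring
    have h0 : 0 ≤ rr * ms / (2 * Nr) := by positivity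
    have h2 : (rr * ms / (2 * Nr)) ^ 2 ≤ (3 / 2 * L ^ 5066 / Nr) ^ 2 := pow_le_pow_left₀ h0 h1 2
    have h3 : (3 / 2 * L ^ 5066 / Nr) ^ 2 = 9 / 4 * L ^ 10132 / Nr ^ 2 := by
      rw [div_pow]
      congr 1
      ring
    rw [h3] at h2
    calc J * (rr * ms / (2 * Nr)) ^ 2 ≤ 2 * (Nr * s) * (9 / 4 * L ^ 10132 / Nr ^ 2) :=
          mul_le_mul hJ3 h2 (by positivity) (by positivity)
      _ = (9 / 2 * L ^ 10132) * (Nr * s) / Nr ^ 2 := by ring
      _ ≤ s * (Nr * s) / Nr ^ 2 := by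
        apply div_le_div_of_nonneg_right _ (by positivity)
        apply mul_le_mul_of_nonneg_right _ (by positivity)
        nlinarith [hp 10132]
      _ = 1 := by
        have e : s * (Nr * s) = Nr ^ 2 := by
          calc s * (Nr * s) = Nr * (s * s) := by ring
            _ = Nr ^ 2 := by rw [hs]; ring
        rw [e, div_self (by positivity)]
  -- the capacity
  have hY : c' * L ^ 240 ≤ J * cp := by
    rw [div_le_iff₀ hM0] at hcap2
    have h1 : c' * L ^ 240 * M1 ≤ J * cp * M1 := by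
      calc c' * L ^ 240 * M1 = c' * (L ^ 240 * M1) := by ring
        _ ≤ c' * (J * (Nr * ms)) := mul_le_mul_of_nonneg_left hJ1 hc.le
        _ = J * (c' * Nr * ms) := by ring
        _ ≤ J * (cp * M1) := mul_le_mul_of_nonneg_left hcap2 hJ0.le
        _ = J * cp * M1 := by ring
    exact le_of_mul_le_mul_right h1 hM0
  have hY2 : 10 * L ^ 239 ≤ J * cp := by
    refine le_trans ?_ hY
    have e : c' * L ^ 240 = (c' * L) * L ^ 239 := by ring
    rw [e]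
    exact mul_le_mul_of_nonneg_right hcL (hp 239).le
  have hD : (1 - δ) * (1 + 8 * δ) * (D / Jm) ≤ J * cp := by
    rw [div_le_iff₀ hM0] at hcap1
    rw [mul_div_assoc', div_le_iff₀ hJm0]
    have h1 : (1 - δ) * (1 + 8 * δ) * D * (J * ms) ≤ J * cp * Jm * (J * ms) := by
      calc (1 - δ) * (1 + 8 * δ) * D * (J * ms) = J * (1 + 8 * δ) * ((1 - δ) * D * ms) := by ring
        _ ≤ J * (1 + 8 * δ) * (cp * M1) := mul_le_mul_of_nonneg_left hcap1 (by positivity)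
        _ = J * cp * ((1 + 8 * δ) * M1) := by ring
        _ ≤ J * cp * (Jm * (J * ms)) := mul_le_mul_of_nonneg_left hJm1 (by positivity)
        _ = J * cp * Jm * (J * ms) := by ring
    exact le_of_mul_le_mul_right h1 hP0
  have eY : J * (cp - (rr * ms / (2 * Nr)) ^ 2) = J * cp - J * (rr * ms / (2 * Nr)) ^ 2 := by ring
  refine ⟨?_, ?_, ?_⟩
  · have h1 : D / Jm ≤ L ^ 240 + 1 := by
      rw [div_le_iff₀ hJm0]
      linarith
    linarith
  · rw [eY]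
    have h1 : D / Jm + 2 ≤ (1 - δ) * (J * cp) := by
      have hκ : 0 < (1 - δ) * (1 + 8 * δ) := by
        apply mul_pos <;> linarith
      have hκ2 : (1 - δ) * (1 + 8 * δ) ≤ 3 / 2 := by nlinarith
      have hκ3 : 1 + 5 * δ ≤ (1 - δ) * ((1 - δ) * (1 + 8 * δ)) := by nlinarith
      have hY0 : 0 < J * cp := mul_pos hJ0 hcp0
      have h2 : (1 - δ) * (1 + 8 * δ) * (D / Jm + 2) ≤
          (1 - δ) * (1 + 8 * δ) * ((1 - δ) * (J * cp)) := by
        have h3 : (1 + 5 * δ) * (J * cp) ≤ (1 - δ) * ((1 - δ) * (1 + 8 * δ)) * (J * cp) :=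
          mul_le_mul_of_nonneg_right hκ3 hY0.le
        have h4 : 3 ≤ 5 * δ * (J * cp) := by
          have h5 : L * L ^ 238 ≤ J * cp := by
            have e : L * L ^ 238 = L ^ 239 := by ring
            rw [e]
            linarith [hp 239]
          have h6 : δ * (L * L ^ 238) ≤ δ * (J * cp) := mul_le_mul_of_nonneg_left h5 hδ.le
          have h7 : 200 * L ^ 238 ≤ δ * L * L ^ 238 := mul_le_mul_of_nonneg_right hδL (hp 238).le
          have h8 := hp1 238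
          calc (3 : ℝ) ≤ 5 * (200 * L ^ 238) := by linarith
            _ ≤ 5 * (δ * L * L ^ 238) := by linarith
            _ = 5 * (δ * (L * L ^ 238)) := by ring
            _ ≤ 5 * (δ * (J * cp)) := by linarith
            _ = 5 * δ * (J * cp) := by ring
        calc (1 - δ) * (1 + 8 * δ) * (D / Jm + 2) =
              (1 - δ) * (1 + 8 * δ) * (D / Jm) + 2 * ((1 - δ) * (1 + 8 * δ)) := by ring
          _ ≤ J * cp + 3 := by linarith
          _ ≤ J * cp + 5 * δ * (J * cp) := by linarith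
          _ = (1 + 5 * δ) * (J * cp) := by ring
          _ ≤ (1 - δ) * ((1 - δ) * (1 + 8 * δ)) * (J * cp) := h3
          _ = (1 - δ) * (1 + 8 * δ) * ((1 - δ) * (J * cp)) := by ring
      exact le_of_mul_le_mul_left h2 hκ
    have h9 : (1 - δ) * (J * (rr * ms / (2 * Nr)) ^ 2) ≤ 1 := by
      have h10 : (1 - δ) * (J * (rr * ms / (2 * Nr)) ^ 2) ≤ (1 - δ) * 1 :=
        mul_le_mul_of_nonneg_left hx (by linarith)
      linarith
    calc D / Jm + 1 ≤ (1 - δ) * (J * cp) - 1 := by linarith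
      _ ≤ (1 - δ) * (J * cp) - (1 - δ) * (J * (rr * ms / (2 * Nr)) ^ 2) := by linarith
      _ = (1 - δ) * (J * cp - J * (rr * ms / (2 * Nr)) ^ 2) := by ring
  · rw [eY]
    have h1 : L ^ 3 ≤ L ^ 239 := msj_pow hL1 (by norm_num)
    have h2 := hp1 239
    linarith

/-- numbers of the lengths of the phases -/
theorem msj_phase {N : ℕ} (hN : 1 ≤ N) (hL : 1000 ≤ Real.log N) (hLN : Real.log N ^ 21000 ≤ N) :
    2 * (N : ℝ) * Real.log N ^ 4601 ≤ msN N ∧ (msN N : ℝ) ≤ 3 * N * Real.log N ^ 4601 ∧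
    2 * (Real.log N * (mrN N : ℝ)) ≤ 3 * msN N ∧
    (ta3 N : ℝ) * Real.log N ^ 208 ≤ 9 * (N : ℝ) ^ 2 ∧
    ((⌈3 * Real.log N ^ 240⌉₊ + ⌈Real.log N ^ 8⌉₊ : ℕ) : ℝ) ≤ 4 * Real.log N ^ 240 ∧
    ((⌈3 * Real.log N ^ 240⌉₊ : ℕ) : ℝ) + Real.log N ^ 232 ≤ Real.log N ^ 243 := by
  set L : ℝ := Real.log N with hLdef
  have hN1 : (1 : ℝ) ≤ N := by exact_mod_cast hN
  have hL1 : 1 ≤ L := by linarith
  have hL0 : 0 < L := by linarith
  have hp : ∀ k : ℕ, 0 < L ^ k := fun k => pow_pos hL0 k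
  have hp1 : ∀ k : ℕ, 1 ≤ L ^ k := fun k => one_le_pow₀ hL1
  have hceil : ∀ x : ℝ, 0 ≤ x → ((⌈x⌉₊ : ℕ) : ℝ) ≤ x + 1 := fun x hx =>
    (Nat.ceil_lt_add_one hx).le
  have hm1 : 2 * (N : ℝ) * L ^ 4601 ≤ msN N := Nat.le_ceil _
  have hNL : ∀ k : ℕ, 1 ≤ (N : ℝ) * L ^ k := fun k => by
    calc (1 : ℝ) = 1 * 1 := by norm_num
      _ ≤ N * L ^ k := mul_le_mul hN1 (hp1 k) zero_le_one (by linarith)
  refine ⟨hm1, ?_, ?_, ?_, ?_, ?_⟩
  · have h1 : (msN N : ℝ) ≤ 2 * (N : ℝ) * L ^ 4601 + 1 := hceil _ (by positivity)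
    have h2 := hNL 4601
    linarith
  · have h1 : (mrN N : ℝ) ≤ 2 * (N : ℝ) * L ^ 4600 + 1 := hceil _ (by positivity)
    have h2 : L * (mrN N : ℝ) ≤ L * (2 * (N : ℝ) * L ^ 4600 + 1) :=
      mul_le_mul_of_nonneg_left h1 hL0.le
    have e : L * (2 * (N : ℝ) * L ^ 4600 + 1) = 2 * (N * L ^ 4601) + L := by ring
    have h3 : L ≤ N * L ^ 4601 := by
      calc L = 1 * L ^ 1 := by ring
        _ ≤ N * L ^ 4601 := mul_le_mul hN1 (msj_pow hL1 (by norm_num)) (hp 1).le (by linarith)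
    rw [e] at h2
    linarith
  · have h1 : (ta3 N : ℝ) ≤ 8 * N * L ^ 12 * th3 N + 1 := by
      apply hceil
      rw [th3]
      positivity
    have h2 : (ta3 N : ℝ) * L ^ 208 ≤ (8 * N * L ^ 12 * th3 N + 1) * L ^ 208 :=
      mul_le_mul_of_nonneg_right h1 (hp 208).le
    have e : (8 * (N : ℝ) * L ^ 12 * th3 N + 1) * L ^ 208 = 8 * (N : ℝ) ^ 2 + L ^ 208 := by
      have e1 : (N : ℝ) / L ^ 220 * L ^ 220 = N := div_mul_cancel₀ _ (hp 220).ne'
      have e2 : (8 * (N : ℝ) * L ^ 12 * th3 N + 1) * L ^ 208 =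
          8 * N * ((N : ℝ) / L ^ 220 * L ^ 220) + L ^ 208 := by
        rw [th3]
        ring
      rw [e2, e1]
      ring
    rw [e] at h2
    have h3 : L ^ 208 ≤ (N : ℝ) ^ 2 := by
      calc L ^ 208 ≤ L ^ 21000 := msj_pow hL1 (by norm_num)
        _ ≤ N := hLN
        _ = N * 1 := (mul_one _).symm
        _ ≤ N * N := mul_le_mul_of_nonneg_left hN1 (by linarith)
        _ = (N : ℝ) ^ 2 := by ring
    linarith
  · have h1 := hceil (3 * L ^ 240) (by positivity)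
    have h2 := hceil (L ^ 8) (by positivity)
    have h3 : L ^ 9 ≤ L ^ 240 := msj_pow hL1 (by norm_num)
    have e : L ^ 9 = L * L ^ 8 := by ring
    have h4 : 1000 * L ^ 8 ≤ L * L ^ 8 := mul_le_mul_of_nonneg_right hL (hp 8).le
    have h5 := hp1 8
    push_cast
    linarith
  · have h1 := hceil (3 * L ^ 240) (by positivity)
    have h2 : L ^ 232 ≤ L ^ 240 := msj_pow hL1 (by norm_num)
    have h3 : L ^ 241 ≤ L ^ 243 := msj_pow hL1 (by norm_num)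
    have e : L ^ 241 = L * L ^ 240 := by ring
    have h4 : 1000 * L ^ 240 ≤ L * L ^ 240 := mul_le_mul_of_nonneg_right hL (hp 240).le
    have h5 := hp1 240
    linarith

/-- all numbers together -/
theorem msj_num (δ c' : ℝ) (hδ : 0 < δ) (hδ2 : δ ≤ 1 / 20) (hc : 0 < c') :
    ∃ N0 : ℕ, ∀ N m1 : ℕ, N0 ≤ N → (N : ℝ) ^ 2 / Real.log N ^ 200 ≤ (m1 : ℝ) / (2 * N) →
    (m1 : ℝ) / (2 * N) ≤ (N : ℝ) ^ (17 / 8 : ℝ) →
    ∃ J Jm : ℕ, 1 ≤ N ∧ 1 ≤ Jm ∧ Jm ≤ N ∧ J ≤ N ^ 2 ∧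
      ((Jm * (J * (msN N + mrN N) +
        3 * ta3 N * (⌈3 * Real.log N ^ 240⌉₊ + ⌈Real.log N ^ 8⌉₊)) : ℕ) : ℝ) ≤
        (1 + 20 * δ) * m1 ∧
      ((⌈3 * Real.log N ^ 240⌉₊ : ℕ) : ℝ) + Real.log N ^ 232 ≤ Real.log N ^ 243 ∧
      1 ≤ Real.log N ^ 243 ∧
      ∀ D cp rr : ℝ, D ≤ N → (1 - δ) * D * msN N / m1 ≤ cp → c' * N * msN N / m1 ≤ cp →
        0 ≤ rr → rr * N ≤ Real.log N ^ 465 →
        D / Jm + 1 ≤ Real.log N ^ 240 + 2 ∧
        D / Jm + 1 ≤ (1 - δ) * (J * (cp - (rr * msN N / (2 * N)) ^ 2)) ∧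
        Real.log N ^ 3 ≤ J * (cp - (rr * msN N / (2 * N)) ^ 2) := by
  obtain ⟨N0, hN0⟩ := msj_ev δ c' hδ hc
  refine ⟨N0, fun N m1 hN ht1 ht2 => ?_⟩
  obtain ⟨hN1, hL, hδL, hcL, hLN⟩ := hN0 N hN
  obtain ⟨hms1, hms2, hmr, hta, hn, hn2⟩ := msj_phase hN1 hL hLN
  set L : ℝ := Real.log N with hLdef
  have hNr1 : (1 : ℝ) ≤ N := by exact_mod_cast hN1
  have hNr0 : (0 : ℝ) < N := by linarith
  have hL1 : 1 ≤ L := by linarith
  have hL0 : 0 < L := by linarith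
  have hp : ∀ k : ℕ, 0 < L ^ k := fun k => pow_pos hL0 k
  have hp1 : ∀ k : ℕ, 1 ≤ L ^ k := fun k => one_le_pow₀ hL1
  have hs : √(N : ℝ) * √(N : ℝ) = N := Real.mul_self_sqrt hNr0.le
  have hs0 : 0 ≤ √(N : ℝ) := Real.sqrt_nonneg _
  have hM1 : 2 * (N : ℝ) ^ 3 ≤ (m1 : ℝ) * L ^ 200 := by
    rw [div_le_div_iff₀ (hp 200) (by positivity)] at ht1
    calc 2 * (N : ℝ) ^ 3 = (N : ℝ) ^ 2 * (2 * N) := by ring
      _ ≤ (m1 : ℝ) * L ^ 200 := ht1
  have hM2 : (m1 : ℝ) ≤ 2 * (N : ℝ) ^ 3 * √(N : ℝ) := by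
    rw [div_le_iff₀ (by positivity)] at ht2
    refine ht2.trans ?_
    have h1 : (N : ℝ) ^ (17 / 8 : ℝ) ≤ (N : ℝ) ^ (2 + 1 / 2 : ℝ) :=
      Real.rpow_le_rpow_of_exponent_le hNr1 (by norm_num)
    rw [Real.rpow_add hNr0, ← Real.sqrt_eq_rpow, Real.rpow_two] at h1
    calc (N : ℝ) ^ (17 / 8 : ℝ) * (2 * N) ≤ ((N : ℝ) ^ 2 * √(N : ℝ)) * (2 * N) :=
          mul_le_mul_of_nonneg_right h1 (by positivity)
      _ = 2 * (N : ℝ) ^ 3 * √(N : ℝ) := by ring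
  have hms0 : (0 : ℝ) < msN N := lt_of_lt_of_le (by have := hp 4601; positivity) hms1
  have hm10 : (0 : ℝ) < m1 := by
    rcases Nat.eq_zero_or_pos m1 with h | h
    · exfalso
      rw [h] at hM1
      have : (0 : ℝ) < 2 * (N : ℝ) ^ 3 := by positivity
      simp at hM1
      linarith
    · exact_mod_cast h
  set J : ℕ := ⌈L ^ 240 * m1 / (N * msN N)⌉₊ with hJ
  have hNms : (0 : ℝ) < N * msN N := by positivity
  have hx0 : 0 < L ^ 240 * m1 / (N * msN N) := by have := hp 240; positivity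
  have hJ0 : (0 : ℝ) < J := by
    have : 0 < J := Nat.ceil_pos.2 hx0
    exact_mod_cast this
  have hJ1 : L ^ 240 * m1 ≤ J * (N * msN N) := by
    have h := Nat.le_ceil (L ^ 240 * m1 / (N * msN N))
    rw [div_le_iff₀ hNms] at h
    exact h
  have hJ2 : (J : ℝ) * (N * msN N) ≤ L ^ 240 * m1 + N * msN N := by
    have h := (Nat.ceil_lt_add_one hx0.le).le
    have h2 := mul_le_mul_of_nonneg_right h hNms.le
    rw [add_mul, div_mul_cancel₀ _ hNms.ne', one_mul] at h2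
    exact h2
  set Jm : ℕ := ⌈(1 + 8 * δ) * m1 / (J * msN N)⌉₊ with hJm
  have hJms : (0 : ℝ) < J * msN N := by positivity
  have hy0 : 0 < (1 + 8 * δ) * m1 / (J * msN N) := by positivity
  have hJm1 : (1 + 8 * δ) * m1 ≤ Jm * (J * msN N) := by
    have h := Nat.le_ceil ((1 + 8 * δ) * m1 / (J * msN N))
    rw [div_le_iff₀ hJms] at h
    exact h
  have hJm2 : (Jm : ℝ) * (J * msN N) ≤ (1 + 8 * δ) * m1 + J * msN N := by
    have h := (Nat.ceil_lt_add_one hy0.le).le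
    have h2 := mul_le_mul_of_nonneg_right h hJms.le
    have e3 : ((1 + 8 * δ) * m1 / (J * msN N) + 1) * ((J : ℝ) * msN N) =
        (1 + 8 * δ) * m1 / (J * msN N) * (J * msN N) + J * msN N := by ring
    rw [e3, div_mul_cancel₀ _ hJms.ne'] at h2
    exact h2
  obtain ⟨a1, a2, a3, a4, a5, a6, a7, a8⟩ := msj_len (L := L) (Nr := N) (s := √(N : ℝ)) (M1 := m1)
    (ms := msN N) (mr := mrN N) (ta := ta3 N)
    (n := ((⌈3 * L ^ 240⌉₊ + ⌈L ^ 8⌉₊ : ℕ) : ℝ)) (δ := δ) (J := J) (Jm := Jm)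
    hL hδ hδ2 hδL hNr1 hLN hs hs0 hms1 hms2 (Nat.cast_nonneg _) hmr hta (Nat.cast_nonneg _) hn hM1
    hM2 hJ0 hJ1 hJ2 hJm1 hJm2
  refine ⟨J, Jm, hN1, ?_, by exact_mod_cast a1, by exact_mod_cast a3, ?_, hn2, hp1 243, ?_⟩
  · have : 0 < Jm := by exact_mod_cast a7
    exact this
  · refine le_trans (le_of_eq ?_) a4
    push_cast
    ring
  · intro D cp rr hD h1 h2 h3 h4
    exact msj_bar (L := L) (Nr := N) (s := √(N : ℝ)) (M1 := m1) (ms := msN N) (δ := δ) (J := J)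
      (Jm := Jm) (c' := c') (D := D) (cp := cp) (rr := rr) hL hδ hδ2 hδL hcL hNr1 hLN hs hs0 hms0
      hms2 a6 hJ0 hJ1 a2 a7 hJm1 a5 hc hD h1 h2 h3 h4

/-! ### interpolated heights -/

/-- interpolated heights -/
def msjH (h0 h1 : ℕ → ℕ) (Jm j i : ℕ) : ℕ := h0 i + (h1 i - h0 i) * j / Jm

theorem msjH_zero (h0 h1 : ℕ → ℕ) (Jm : ℕ) : msjH h0 h1 Jm 0 = h0 := by
  funext i
  simp [msjH]

theorem msjH_last {h0 h1 : ℕ → ℕ} {Jm : ℕ} (hJ : 1 ≤ Jm) {i : ℕ} (h : h0 i ≤ h1 i) :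
    msjH h0 h1 Jm Jm i = h1 i := by
  rw [msjH, Nat.mul_div_cancel _ (by omega)]
  omega

theorem msjH_bounds {h0 h1 : ℕ → ℕ} {Jm j i : ℕ} (hJ : 1 ≤ Jm) (h : h0 i ≤ h1 i) :
    (msjH h0 h1 Jm j i : ℝ) ≤ h0 i + ((h1 i : ℝ) - h0 i) * (j / Jm) ∧
    (h0 i : ℝ) + ((h1 i : ℝ) - h0 i) * (j / Jm) ≤ msjH h0 h1 Jm j i + 1 := by
  have hJr : (0 : ℝ) < Jm := by exact_mod_cast hJ
  have e : ((h1 i - h0 i : ℕ) : ℝ) = (h1 i : ℝ) - h0 i := Nat.cast_sub h
  have h1' : ((((h1 i - h0 i) * j / Jm : ℕ)) : ℝ) ≤ ((h1 i : ℝ) - h0 i) * (j / Jm) := by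
    have := @Nat.cast_div_le ℝ _ _ _ ((h1 i - h0 i) * j) Jm
    rw [Nat.cast_mul, e] at this
    rwa [← mul_div_assoc]
  have h2' : ((h1 i : ℝ) - h0 i) * (j / Jm) ≤ ((((h1 i - h0 i) * j / Jm : ℕ)) : ℝ) + 1 := by
    rw [← mul_div_assoc, div_le_iff₀ hJr, ← e]
    have h3 := Nat.div_add_mod ((h1 i - h0 i) * j) Jm
    have h4 := Nat.mod_lt ((h1 i - h0 i) * j) (show 0 < Jm by omega)
    have h5 : (h1 i - h0 i) * j ≤ ((h1 i - h0 i) * j / Jm + 1) * Jm := by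
      rw [add_mul, one_mul, mul_comm _ Jm]
      omega
    exact_mod_cast h5
  rw [msjH, Nat.cast_add]
  constructor <;> linarith

theorem msjH_mono {h0 h1 : ℕ → ℕ} {Jm j i : ℕ} : msjH h0 h1 Jm j i ≤ msjH h0 h1 Jm (j + 1) i := by
  rw [msjH, msjH]
  apply Nat.add_le_add_left
  apply Nat.div_le_div_right
  exact Nat.mul_le_mul_left _ (Nat.le_succ j)

theorem msjH_inc {h0 h1 : ℕ → ℕ} {Jm j i : ℕ} (hJ : 1 ≤ Jm) (h : h0 i ≤ h1 i) :
    (msjH h0 h1 Jm (j + 1) i : ℝ) - msjH h0 h1 Jm j i ≤ ((h1 i : ℝ) - h0 i) / Jm + 1 := by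
  have a := (msjH_bounds (j := j + 1) hJ h).1
  have b := (msjH_bounds (j := j) hJ h).2
  have e : ((h1 i : ℝ) - h0 i) * (((j + 1 : ℕ) : ℝ) / Jm) =
      ((h1 i : ℝ) - h0 i) * ((j : ℝ) / Jm) + ((h1 i : ℝ) - h0 i) / Jm := by
    push_cast
    ring
  rw [e] at a
  linarith

theorem msjH_room {N p : ℕ} {bb h0 h1 : ℕ → ℕ} {v : ℝ} {Jm j : ℕ} (hv : 1 ≤ v) (hJ : 1 ≤ Jm)
    (hj : j ≤ Jm) (hr0 : Room N p bb h0 (2 * v)) (hr1 : Room N p bb h1 (2 * v))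
    (hle : ∀ i, i ≤ p + 1 → h0 i ≤ h1 i) : Room N p bb (msjH h0 h1 Jm j) v := by
  have hJr : (0 : ℝ) < Jm := by exact_mod_cast hJ
  set t : ℝ := (j : ℝ) / Jm with ht
  have ht0 : 0 ≤ t := by positivity
  have ht1 : t ≤ 1 := by
    rw [ht, div_le_one hJr]
    exact_mod_cast hj
  refine ⟨?_, fun i hi => ?_⟩
  · rw [msjH, hr0.1, hr1.1]
    simp
  · have a := msjH_bounds (j := j) hJ (hle i (by omega))
    have b := msjH_bounds (j := j) hJ (hle (i + 1) (by omega))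
    rw [← ht] at a b
    obtain ⟨c1, c2⟩ := hr0.2 i hi
    obtain ⟨d1, d2⟩ := hr1.2 i hi
    have f1 := mul_le_mul_of_nonneg_left c1 (show 0 ≤ 1 - t by linarith)
    have f2 := mul_le_mul_of_nonneg_left d1 ht0
    have g1 := mul_le_mul_of_nonneg_left c2 (show 0 ≤ 1 - t by linarith)
    have g2 := mul_le_mul_of_nonneg_left d2 ht0
    constructor
    · linarith [a.2, b.1]
    · linarith [a.1, b.2]

theorem msj_Wcl {N p : ℕ} {bb h h' : ℕ → ℕ} {I0 : Finset ℕ} {n : ℕ}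
    (hh : ∀ i, i ≤ p + 1 → h i = h' i) : Wcl N p bb h I0 n = Wcl N p bb h' I0 n := by
  have e : ∀ i, i ≤ p → xi bb h i = xi bb h' i := by
    intro i hi
    rw [xi, xi, hh i (by omega), hh (i + 1) (by omega)]
  ext η
  constructor
  · intro hη i hi
    obtain ⟨a, b, c⟩ := hη i hi
    rw [e i hi, hh i (by omega)] at *
    exact ⟨a, b, c⟩
  · intro hη i hi
    obtain ⟨a, b, c⟩ := hη i hi
    rw [← e i hi] at *
    rw [← hh i (by omega)] at a
    exact ⟨a, b, c⟩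

theorem msj_cat {N : ℕ} {m : ℕ} {σ σ' : ℕ → Finset ℕ} (h : ∀ i, σ i ⊆ full N)
    (h' : ∀ i, σ' i ⊆ full N) : ∀ i, cat m σ σ' i ⊆ full N := by
  intro i
  unfold cat
  split_ifs
  · exact h i
  · exact h' _

/-- iteration -/
theorem msj_iter {N k : ℕ} {r l : ℕ → ℝ} (h : Adm N r l) (W : ℕ → Set (Cfg N)) (M Jm : ℕ) (e : ℝ)
    (he : 0 ≤ e) (hW : ∀ j ξ, ξ ∈ W j → ht ξ 0 = k)
    (step : ∀ j, j < Jm → ∃ σ : ℕ → Finset ℕ, (∀ i, σ i ⊆ full N) ∧ ∀ ξ ∈ W j,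
      pr r l σ M (W (j + 1))ᶜ ξ ≤ e) :
    ∀ j, j ≤ Jm → ∃ σ : ℕ → Finset ℕ, (∀ i, σ i ⊆ full N) ∧ ∀ ξ ∈ W 0,
      pr r l σ (j * M) (W j)ᶜ ξ ≤ j * e := by
  intro j
  induction j with
  | zero =>
    intro _
    refine ⟨fun _ => full N, fun _ => Finset.Subset.refl _, fun ξ hξ => ?_⟩
    rw [zero_mul, Nat.cast_zero, zero_mul, pr, ev_zero, ind_of_not_mem (by simpa using hξ)]
  | succ j ih =>
    intro hj
    obtain ⟨σ, hσ, hp⟩ := ih (by omega)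
    obtain ⟨σ', hσ', hp'⟩ := step j (by omega)
    refine ⟨cat (j * M) σ σ', msj_cat hσ hσ', fun ξ hξ => ?_⟩
    have := pr_cat_fail h (k := k) σ σ' (j * M) M (A := W j) (B := W (j + 1)) (hW 0 ξ hξ)
      (hp ξ hξ) he (fun ζ _ hζ => hp' ζ hζ)
    rw [Nat.succ_mul]
    refine this.trans (le_of_eq ?_)
    push_cast
    ring

theorem st_MSJ (hMSB : ST_MSB) (hMSR : ST_MSR) : ST_MSJ := by
  intro C1 δ c' hC1 hδ hδ2 hc
  obtain ⟨Na, hNa⟩ := hMSB C1 δ hδ (by linarith)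
  obtain ⟨Nb, hNb⟩ := hMSR C1 hC1
  obtain ⟨Nc, hNc⟩ := msj_num δ c' hδ hδ2 hc
  refine ⟨max Na (max Nb Nc), ?_⟩
  intro N p w k m1 bb h0 h1 r l hN hBE h0k h1k hk hR0 hR1 hle hcap ht1 ht2
  obtain ⟨J, Jm, hN1, hJm1, hJmN, hJN, hlen, hn, hL243, hbar⟩ :=
    hNc N m1 (by omega) ht1 ht2
  set L : ℝ := Real.log N with hL
  have hadm := hBE.ge.adm
  -- heights are bounded by `N`
  have hmono : ∀ i, i ≤ p + 1 → h1 i ≤ k := by
    intro i
    induction i with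
    | zero => intro _; omega
    | succ i ih =>
      intro hi
      have h2 := (hR1.2 i (by omega)).1
      have h3 : (h1 (i + 1) : ℝ) ≤ h1 i := by linarith
      have h4 : h1 (i + 1) ≤ h1 i := by exact_mod_cast h3
      have := ih (by omega)
      omega
  have hroom : ∀ j, j ≤ Jm → Room N p bb (msjH h0 h1 Jm j) (L ^ 243) := fun j hj =>
    msjH_room hL243 hJm1 hj hR0 hR1 hle
  have hz : ∀ j, msjH h0 h1 Jm j 0 = k := by
    intro j
    rw [msjH, h0k, h1k]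
    simp
  set n : ℕ := ⌈3 * L ^ 240⌉₊ with hndef
  set M : ℕ := J * (msN N + mrN N) + 3 * ta3 N * (n + ⌈L ^ 8⌉₊) with hM
  set e : ℝ := (N : ℝ) ^ (-5 : ℝ) with he
  have he0 : 0 ≤ e := Real.rpow_nonneg (Nat.cast_nonneg _) _
  have hstep : ∀ j, j < Jm → ∃ σ : ℕ → Finset ℕ, (∀ i, σ i ⊆ full N) ∧
      ∀ ξ ∈ Up k (Wcl N p bb (msjH h0 h1 Jm j) ∅ 0),
        pr r l σ M (Up k (Wcl N p bb (msjH h0 h1 Jm (j + 1)) ∅ 0))ᶜ ξ ≤ e := by
    intro j hj
    obtain ⟨σ, hσ, hp⟩ := hNa N p w k J bb (msjH h0 h1 Jm j) (msjH h0 h1 Jm (j + 1)) r l (by omega)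
      hBE (hz j) (hz (j + 1)) hk (hroom j hj.le) (hroom (j + 1) hj) hJN (fun i hi1 hi2 => by
        have hD : (h1 i : ℝ) - h0 i ≤ N := by
          have h2 := hmono i (by omega)
          have h3 : (h1 i : ℝ) ≤ N := by exact_mod_cast h2.trans hk
          have h4 : (0 : ℝ) ≤ h0 i := Nat.cast_nonneg _
          linarith
        obtain ⟨b1, b2, b3⟩ := hbar ((h1 i : ℝ) - h0 i) (cpb N r l w (bb i)) (r (bb i)) hD
          (hcap i hi1 hi2).1 (hcap i hi1 hi2).2 (hBE.ge.pos (bb i)).1.le (hBE.slow i hi1 hi2)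
        have hinc := msjH_inc (j := j) hJm1 (hle i (by omega))
        refine ⟨msjH_mono, ?_, hinc.trans b2, b3⟩
        linarith)
    obtain ⟨σ', hσ', hp'⟩ := hNb N p w k n bb (msjH h0 h1 Jm (j + 1)) (Finset.range (p + 1)) r l
      (by omega) hBE (hz (j + 1)) hk (hroom (j + 1) hj) (fun i hi => by
        have hip : i ≤ p := by
          have := Finset.mem_range.1 hi
          omega
        obtain ⟨c1, c2⟩ := (hroom (j + 1) hj).2 i hip
        refine ⟨hip, ?_, ?_⟩ <;> linarith)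
    refine ⟨cat (J * (msN N + mrN N)) σ σ', msj_cat hσ hσ', fun ξ hξ => ?_⟩
    have h5 := pr_cat_fail hadm (k := k) σ σ' (J * (msN N + mrN N)) (3 * ta3 N * (n + ⌈L ^ 8⌉₊))
      (A := Up k (Wcl N p bb (msjH h0 h1 Jm (j + 1)) (Finset.range (p + 1)) n))
      (B := Up k (Wcl N p bb (msjH h0 h1 Jm (j + 1)) ∅ 0)) (η := ξ) hξ.1 (hp ξ hξ)
      (by positivity) (fun ζ _ hζ => hp' ζ hζ)
    refine h5.trans (le_of_eq ?_)
    rw [he]
    ring
  obtain ⟨σ, hσ, hp⟩ := msj_iter hadm (k := k)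
    (fun j => Up k (Wcl N p bb (msjH h0 h1 Jm j) ∅ 0)) M Jm e he0 (fun j ξ hξ => hξ.1) hstep Jm le_rfl
  refine ⟨σ, Jm * M, hσ, hlen, fun ξ hξ => ?_⟩
  have hW1 : Wcl N p bb (msjH h0 h1 Jm Jm) ∅ 0 = Wcl N p bb h1 ∅ 0 :=
    msj_Wcl (fun i hi => msjH_last hJm1 (hle i hi))
  have h6 := hp ξ (by rw [msjH_zero]; exact hξ)
  rw [hW1] at h6
  refine h6.trans ?_
  have hN0 : (0 : ℝ) < N := by exact_mod_cast hN1
  have e1 : (N : ℝ) ^ (-3 : ℝ) = (N : ℝ) ^ 2 * e := by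
    rw [he, ← Real.rpow_two, ← Real.rpow_add hN0]
    norm_num
  rw [e1]
  apply mul_le_mul_of_nonneg_right _ he0
  have h7 : (Jm : ℝ) ≤ N := by exact_mod_cast hJmN
  have h8 : (1 : ℝ) ≤ N := by exact_mod_cast hN1
  nlinarith

end Pool.Agent.Helper98.EX
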